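import Pool.Agent.R518.B.Sys2

set_option autoImplicit false

/-!
# Primes `p < n`, `n` even, such that `q = n - p` and `q ^ 2 - 2` are rough: exact number and law of the
successors
-/

namespace Pool.Agent.Results.MP_4011c3_nt.PrimeP

open Finset Filter

/-- `l` divides one of the three numbers `p`, `q = n - p` and `q ^ 2 - 2`. -/
def Divides (n l p : ℕ) : Prop :=
  l ∣ p ∨ (l : ℤ) ∣ (n : ℤ) - (p : ℤ) ∨ (l : ℤ) ∣ ((n : ℤ) - (p : ℤ)) ^ 2 - 2

/-- None of `p`, `n - p` and `(n - p) ^ 2 - 2` has a prime factor `≤ y`. -/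
def Rough (n y p : ℕ) : Prop := ∀ l : ℕ, l.Prime → l ≤ y → ¬ Divides n l p

open Classical in
/-- The density of these `p`: the product of `1 - ν(l) / l` over the primes `l ≤ y`, where `ν(l)` is the number
of the residues `p` modulo `l` for which `l` divides one of the three numbers. -/
noncomputable def V (n y : ℕ) : ℝ := ∏ l ∈ (Finset.range (y + 1)).filter Nat.Prime,
    (1 - (((Finset.range l).filter (fun p : ℕ => Divides n l p)).card : ℝ) / l)

open Classical in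
/-- The product of `(1 - ν(l) / l) / (1 - 1 / l)` over the primes `l ≤ y`. -/
noncomputable def W (n y : ℕ) : ℝ := ∏ l ∈ (Finset.range (y + 1)).filter Nat.Prime,
    (1 - (((Finset.range l).filter (fun p : ℕ => Divides n l p)).card : ℝ) / l) / (1 - 1 / (l : ℝ))

open Classical in
/-- The primes `p` in `(u, u + Y]` with `Rough n y p`. -/
noncomputable def P (n y u Y : ℕ) : Finset ℕ :=
  (Ioc u (u + Y)).filter (fun p => p.Prime ∧ Rough n y p)

open Classical in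
/-- The number of the integers `p'` in `(p, p + T]` with `Rough n y p'`. -/
noncomputable def Next (n y T p : ℕ) : ℕ := ((Ioc p (p + T)).filter (fun p' => Rough n y p')).card

/-- **The primes `p`.** For all `θ, δ > 0`, `x0` and `ε > 0` there is `r0` such that for `r ≥ r0` the following
holds for EVERY large even `n`, with `y = n ^ (1 / r)`, all `X ≥ n ^ θ` and all intervals `(u, u + Y]` in
`(0, X]` with `Y ≥ δ X`: (1) the number of the primes `p > y` in the interval for which neither `q = n - p` nor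
`q ^ 2 - 2` has a prime factor `≤ y` is `(1 + O(ε)) Y W / log X`; (2) if `T V ≤ x0`, then the number of the
integers `p'` in `(p, p + T]` for which none of `p'`, `n - p'`, `(n - p') ^ 2 - 2` has a prime factor `≤ y`, `p`
running over these primes, has the Poisson law with mean `T V`, up to `ε`. -/
theorem result (θ δ : ℝ) (hθ : 0 < θ) (hδ : 0 < δ) (hδ1 : δ ≤ 1) (x0 ε : ℝ) (hε : 0 < ε) (hε1 : ε ≤ 1) :
    ∃ r0 : ℕ, 2 ≤ r0 ∧ ∀ r : ℕ, r0 ≤ r → ∀ᶠ n : ℕ in atTop, Even n →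
      0 < W n ⌊(n : ℝ) ^ (1 / (r : ℝ))⌋₊ ∧
      ∀ X : ℕ, (n : ℝ) ^ θ ≤ X → ∀ u Y : ℕ, δ * X ≤ Y → u + Y ≤ X →
        |((P n ⌊(n : ℝ) ^ (1 / (r : ℝ))⌋₊ u Y).card : ℝ) * Real.log X -
          Y * W n ⌊(n : ℝ) ^ (1 / (r : ℝ))⌋₊| ≤ ε * (Y * W n ⌊(n : ℝ) ^ (1 / (r : ℝ))⌋₊) ∧
        ∀ T : ℕ, T * V n ⌊(n : ℝ) ^ (1 / (r : ℝ))⌋₊ ≤ x0 → ∀ J : Finset ℕ,
          |(((P n ⌊(n : ℝ) ^ (1 / (r : ℝ))⌋₊ u Y).filter
              (fun p => Next n ⌊(n : ℝ) ^ (1 / (r : ℝ))⌋₊ T p ∈ J)).card : ℝ) -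
            (P n ⌊(n : ℝ) ^ (1 / (r : ℝ))⌋₊ u Y).card *
              ∑ i ∈ J, Real.exp (-(T * V n ⌊(n : ℝ) ^ (1 / (r : ℝ))⌋₊)) *
                (T * V n ⌊(n : ℝ) ^ (1 / (r : ℝ))⌋₊) ^ i / i.factorial| ≤
            ε * (P n ⌊(n : ℝ) ^ (1 / (r : ℝ))⌋₊ u Y).card := by
  obtain ⟨r0, hr0, h0⟩ := Pool.Agent.R518.G.primeG1 3 2 3 (1 / 2) θ δ (by norm_num) hθ hδ hδ1 x0 ε hε hε1
  refine ⟨r0, hr0, fun r hr => ?_⟩
  filter_upwards [h0 r hr, eventually_ge_atTop 2] with n hn hn2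
  intro heven
  exact hn _ (Divides n) (Pool.Agent.R518.G.fp_us n hn2 heven _ (Pool.Agent.R518.G.rpow_half_lt n hn2))
    (Pool.Agent.R518.G.fp_rep n) ⟨0, fun p => Pool.Agent.R518.G.fp_base n p⟩ _ rfl

end Pool.Agent.Results.MP_4011c3_nt.PrimeP
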