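import Pool.Agent.R518.B.Sys2

set_option autoImplicit false

/-!
# Primes `q` such that `n - j - m q` and `q ^ 2 - 2` are rough: exact number and law of the successors
-/

namespace Pool.Agent.Results.MP_4011c3_nt.PrimeQ

open Finset Filter

/-- `l` divides one of the three numbers `q`, `p = n - j - m q` and `q ^ 2 - 2`. If `p` is positive and
`j < m`, then `q = ⌊(n - p) / m⌋`. -/
def Divides (m n j l q : ℕ) : Prop :=
  l ∣ q ∨ (l : ℤ) ∣ (n : ℤ) - (j : ℤ) - (m : ℤ) * (q : ℤ) ∨ (l : ℤ) ∣ (q : ℤ) ^ 2 - 2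

/-- None of `q`, `n - j - m q` and `q ^ 2 - 2` has a prime factor `≤ y`. -/
def Rough (m n j y q : ℕ) : Prop := ∀ l : ℕ, l.Prime → l ≤ y → ¬ Divides m n j l q

open Classical in
/-- The density of these `q`: the product of `1 - ν(l) / l` over the primes `l ≤ y`, where `ν(l)` is the number
of the residues `q` modulo `l` for which `l` divides one of the three numbers. -/
noncomputable def V (m n j y : ℕ) : ℝ := ∏ l ∈ (Finset.range (y + 1)).filter Nat.Prime,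
    (1 - (((Finset.range l).filter (fun q : ℕ => Divides m n j l q)).card : ℝ) / l)

open Classical in
/-- The product of `(1 - ν(l) / l) / (1 - 1 / l)` over the primes `l ≤ y`. -/
noncomputable def W (m n j y : ℕ) : ℝ := ∏ l ∈ (Finset.range (y + 1)).filter Nat.Prime,
    (1 - (((Finset.range l).filter (fun q : ℕ => Divides m n j l q)).card : ℝ) / l) / (1 - 1 / (l : ℝ))

open Classical in
/-- The primes `q` in `(u, u + Y]` with `Rough m n j y q`. -/
noncomputable def P (m n j y u Y : ℕ) : Finset ℕ :=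
  (Ioc u (u + Y)).filter (fun q => q.Prime ∧ Rough m n j y q)

open Classical in
/-- The number of the integers `q'` in `(q, q + T]` with `Rough m n j y q'`. -/
noncomputable def Next (m n j y T q : ℕ) : ℕ := ((Ioc q (q + T)).filter (fun q' => Rough m n j y q')).card

/-- **The primes `q`.** For all `θ, δ > 0`, `x0` and `ε > 0` there is `r0` such that for `r ≥ r0` the following
holds for EVERY large `n`, ALL `1 ≤ m ≤ n` and all `j < m` such that `n - j` is prime to `m` and `m + n - j` is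
odd, with `y = n ^ (1 / r)`, all `X ≥ n ^ θ` and all intervals `(u, u + Y]` in `(0, X]` with `Y ≥ δ X`: (1) the
number of the primes `q > y` in the interval for which neither `n - j - m q` nor `q ^ 2 - 2` has a prime
factor `≤ y` is `(1 + O(ε)) Y W / log X`; (2) if `T V ≤ x0`, then the number of the integers `q'` in
`(q, q + T]` for which none of `q'`, `n - j - m q'`, `q' ^ 2 - 2` has a prime factor `≤ y`, `q` running over
these primes, has the Poisson law with mean `T V`, up to `ε`. -/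
theorem result (θ δ : ℝ) (hθ : 0 < θ) (hδ : 0 < δ) (hδ1 : δ ≤ 1) (x0 ε : ℝ) (hε : 0 < ε) (hε1 : ε ≤ 1) :
    ∃ r0 : ℕ, 2 ≤ r0 ∧ ∀ r : ℕ, r0 ≤ r → ∀ᶠ n : ℕ in atTop, ∀ m j : ℕ, 1 ≤ m → m ≤ n → j < m →
      IsCoprime (m : ℤ) ((n : ℤ) - j) → Odd ((m : ℤ) + n - j) →
      0 < W m n j ⌊(n : ℝ) ^ (1 / (r : ℝ))⌋₊ ∧
      ∀ X : ℕ, (n : ℝ) ^ θ ≤ X → ∀ u Y : ℕ, δ * X ≤ Y → u + Y ≤ X →
        |((P m n j ⌊(n : ℝ) ^ (1 / (r : ℝ))⌋₊ u Y).card : ℝ) * Real.log X -
          Y * W m n j ⌊(n : ℝ) ^ (1 / (r : ℝ))⌋₊| ≤ ε * (Y * W m n j ⌊(n : ℝ) ^ (1 / (r : ℝ))⌋₊) ∧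
        ∀ T : ℕ, T * V m n j ⌊(n : ℝ) ^ (1 / (r : ℝ))⌋₊ ≤ x0 → ∀ J : Finset ℕ,
          |(((P m n j ⌊(n : ℝ) ^ (1 / (r : ℝ))⌋₊ u Y).filter
              (fun q => Next m n j ⌊(n : ℝ) ^ (1 / (r : ℝ))⌋₊ T q ∈ J)).card : ℝ) -
            (P m n j ⌊(n : ℝ) ^ (1 / (r : ℝ))⌋₊ u Y).card *
              ∑ i ∈ J, Real.exp (-(T * V m n j ⌊(n : ℝ) ^ (1 / (r : ℝ))⌋₊)) *
                (T * V m n j ⌊(n : ℝ) ^ (1 / (r : ℝ))⌋₊) ^ i / i.factorial| ≤
            ε * (P m n j ⌊(n : ℝ) ^ (1 / (r : ℝ))⌋₊ u Y).card := by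
  obtain ⟨r0, hr0, h0⟩ := Pool.Agent.R518.G.primeG1 3 2 2 (1 / 2) θ δ (by norm_num) hθ hδ hδ1 x0 ε hε hε1
  refine ⟨r0, hr0, fun r hr => ?_⟩
  filter_upwards [h0 r hr, eventually_ge_atTop 2] with n hn hn2
  intro m j hm hmn hj hco hodd
  exact hn _ (Divides m n j) (Pool.Agent.R518.G.fq_us m n j hn2 hm hmn hj hco hodd _
      (Pool.Agent.R518.G.rpow_half_lt n hn2))
    (Pool.Agent.R518.G.fq_rep m n j) ⟨1, fun q => Pool.Agent.R518.G.fq_base m n j q⟩ _ rfl

end Pool.Agent.Results.MP_4011c3_nt.PrimeQ
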