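import Pool.Agent.R518.B.Sys2

set_option autoImplicit false

/-!
# Regular points of arbitrary sets of the `q` with `p`, `q = ⌊(n - p) / m⌋` and `q ^ 2 - 2` prime or rough
-/

namespace Pool.Agent.Results.MP_4011c3_nt.RegularPoints

open Finset Filter

/-- `l` divides one of the three numbers `q`, `p = n - j - m q` and `q ^ 2 - 2`. If `p` is positive and
`j < m`, then `q = ⌊(n - p) / m⌋`. -/
def Divides (m n j l q : ℕ) : Prop :=
  l ∣ q ∨ (l : ℤ) ∣ (n : ℤ) - (j : ℤ) - (m : ℤ) * (q : ℤ) ∨ (l : ℤ) ∣ (q : ℤ) ^ 2 - 2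

/-- None of `q`, `n - j - m q` and `q ^ 2 - 2` has a prime factor `≤ y`. -/
def Rough (m n j y q : ℕ) : Prop := ∀ l : ℕ, l.Prime → l ≤ y → ¬ Divides m n j l q

open Classical in
/-- The density of these `q`: the product of `1 - ν(l) / l` over the primes `l ≤ y`, where `ν(l)` is the number
of the residues `q` modulo `l` for which `l` divides one of the three numbers. -/
noncomputable def V (m n j y : ℕ) : ℝ := ∏ l ∈ (Finset.range (y + 1)).filter Nat.Prime,
    (1 - (((Finset.range l).filter (fun q : ℕ => Divides m n j l q)).card : ℝ) / l)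

open Classical in
/-- The number of elements of `S` in `(a, b]`. -/
noncomputable def count (S : Set ℕ) (a b : ℕ) : ℕ := ((Finset.Ioc a b).filter (fun m => m ∈ S)).card

/-- All intervals `(x - s, x + t]` with `s, t ≤ Y` of length at least `L / κ` contain between
`κ (s + t) / L` and `(s + t) / (κ L)` elements of `S`. -/
def RightOrder (S : Set ℕ) (L κ : ℝ) (Y x : ℕ) : Prop :=
  ∀ s t : ℕ, s ≤ Y → t ≤ Y → L ≤ κ * (s + t) →
    κ * (s + t) / L ≤ count S (x - s) (x + t) ∧ (count S (x - s) (x + t) : ℝ) ≤ (s + t) / (κ * L)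

/-- Up to `δ`, `S` has a constant density on both sides of `x` up to the distance `2 ^ i`. -/
def ConstantDensity (S : Set ℕ) (L κ δ : ℝ) (x i : ℕ) : Prop :=
  ∃ lam : ℝ, κ ≤ lam ∧ lam ≤ 1 / κ ∧ ∀ s t : ℕ, s ≤ 2 ^ i → t ≤ 2 ^ i →
    |(count S (x - s) (x + t) : ℝ) - lam * (s + t) / L| ≤ δ * 2 ^ i / L

open Classical in
/-- The number of the scales `L ≤ 2 ^ i ≤ Y` without this property. -/
noncomputable def badScales (S : Set ℕ) (L κ δ : ℝ) (Y x : ℕ) : ℕ :=
  ((Finset.range (Nat.log 2 Y + 1)).filter (fun i => L ≤ (2 : ℝ) ^ i ∧ ¬ ConstantDensity S L κ δ x i)).card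

/-- The elements of `S` that are not regular points of `S`. -/
def Irregular (S : Set ℕ) (L κ δ : ℝ) (M Y : ℕ) : Set ℕ :=
  {x | x ∈ S ∧ ¬ (RightOrder S L κ Y x ∧ badScales S L κ δ Y x ≤ M)}

/-- **Regular points.** Let `θ > 0` be given and `r ≥ r0(θ)`. For `ε > 0` there is `κ > 0`, and for `δ > 0` there
is `M`, such that for EVERY large `n`, ALL `1 ≤ m ≤ n` and all `j < m` such that `n - j` is prime to `m` and
`m + n - j` is odd, all `n ^ θ ≤ Y ≤ n`, `u ≥ Y`, and EVERY set `S` of integers `q` such that none of `q`,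
`n - j - m q` and `q ^ 2 - 2` has a prime factor `≤ n ^ (1 / r)`, for instance the set of all `q` for which
these are three primes `> n ^ (1 / r)`: all but at most `ε Y V` of the elements of `S` in
`(u, u + Y]` are regular points of `S`: all intervals of length between `1 / (κ V)` and `Y` around them
contain the right order of elements of `S`, and `S` has a constant density up to `δ` around them at all but
`M` dyadic scales. -/
theorem result (θ : ℝ) (hθ : 0 < θ) :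
    ∃ r0 : ℕ, 2 ≤ r0 ∧ ∀ r : ℕ, r0 ≤ r → ∀ ε : ℝ, 0 < ε → ∃ κ : ℝ, 0 < κ ∧
      ∀ δ : ℝ, 0 < δ → ∃ M : ℕ, ∀ᶠ n : ℕ in atTop, ∀ m j : ℕ, 1 ≤ m → m ≤ n → j < m →
      IsCoprime (m : ℤ) ((n : ℤ) - j) → Odd ((m : ℤ) + n - j) →
      ∀ u Y : ℕ, (n : ℝ) ^ θ ≤ Y → Y ≤ n → Y ≤ u →
      ∀ S : Set ℕ, (∀ q ∈ S, Rough m n j ⌊(n : ℝ) ^ (1 / (r : ℝ))⌋₊ q) →
        (count (Irregular S (1 / V m n j ⌊(n : ℝ) ^ (1 / (r : ℝ))⌋₊) κ δ M Y) u (u + Y) : ℝ) ≤
          ε * (Y * V m n j ⌊(n : ℝ) ^ (1 / (r : ℝ))⌋₊) := by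
  obtain ⟨r0, hr0, h0⟩ := Pool.Agent.R518.G.regG 3 2 2 1 1 θ one_pos hθ
  refine ⟨r0, hr0, fun r hr ε hε => ?_⟩
  obtain ⟨κ, hκ, h1⟩ := h0 r hr 1 ε one_pos hε
  refine ⟨κ, hκ, fun δ hδ => ?_⟩
  obtain ⟨M, h2⟩ := h1 δ hδ
  refine ⟨M, ?_⟩
  filter_upwards [h2, eventually_ge_atTop 2] with n hn hn2
  intro m j hm hmn hj hco hodd u Y hY hYX hYu S hS
  exact hn _ (Divides m n j) (Pool.Agent.R518.G.tr0 (Pool.Agent.R518.G.fq_us m n j hn2 hm hmn hj hco hodd _
      (Pool.Agent.R518.G.rpow_half_lt n hn2)))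
    (Pool.Agent.R518.G.fq_rep m n j) _ (Finset.card_singleton _).le
    (Pool.Agent.R518.G.fl_noAs _ _ _ (by exact_mod_cast hm) _) _ rfl (by
    rw [one_mul]
    exact Pool.Agent.R518.G.De_le_D1 (fun p hp => ⟨0, hp.pos, Or.inl (dvd_zero _)⟩) _) u Y hY hYX hYu S hS

end Pool.Agent.Results.MP_4011c3_nt.RegularPoints
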