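import Pool.Agent.R518.B.Sys2

set_option autoImplicit false

/-!
# Rough `p`, `q = ⌊(n - p) / m⌋` and `q ^ 2 - 2`: the law of the spacings, uniformly in `m`
-/

namespace Pool.Agent.Results.MP_4011c3_nt.SpacingLaw

open Finset Filter

/-- `l` divides one of the three numbers `q`, `p = n - j - m q` and `q ^ 2 - 2`. If `p` is positive and
`j < m`, then `q = ⌊(n - p) / m⌋`. -/
def Divides (m n j l q : ℕ) : Prop :=
  l ∣ q ∨ (l : ℤ) ∣ (n : ℤ) - (j : ℤ) - (m : ℤ) * (q : ℤ) ∨ (l : ℤ) ∣ (q : ℤ) ^ 2 - 2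

/-- None of `q`, `n - j - m q` and `q ^ 2 - 2` has a prime factor `≤ y`. -/
def Rough (m n j y q : ℕ) : Prop := ∀ l : ℕ, l.Prime → l ≤ y → ¬ Divides m n j l q

open Classical in
/-- The density of these `q`: the product of `1 - ν(l) / l` over the primes `l ≤ y`, where `ν(l)` is the number
of the residues `q` modulo `l` for which `l` divides one of the three numbers. -/
noncomputable def V (m n j y : ℕ) : ℝ := ∏ l ∈ (Finset.range (y + 1)).filter Nat.Prime,
    (1 - (((Finset.range l).filter (fun q : ℕ => Divides m n j l q)).card : ℝ) / l)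

open Classical in
/-- The number of the `q` in `(u, u + Y]` with `Rough m n j y q` for which fewer than `k` of the `T` integers
before `q` have this property. -/
noncomputable def D (m n j y k T u Y : ℕ) : ℕ :=
  ((Ioc u (u + Y)).filter (fun q => Rough m n j y q ∧
    ((Ico (q - T) q).filter (fun q' => Rough m n j y q')).card < k)).card

open Classical in
/-- **The law of the spacings.** For all `θ > 0`, `k0`, `x0` and `ε > 0` there is `r0` such that for `r ≥ r0` the
following holds for EVERY large `n`, ALL `1 ≤ m ≤ n` and all `j < m` such that `n - j` is prime to `m` and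
`m + n - j` is odd (if these two conditions are not satisfied, then one of the three numbers always has a
fixed prime factor), with `y = n ^ (1 / r)`, and for EVERY interval `(u, u + Y]`, `Y ≥ n ^ θ`: among the `q` in it
for which none of `q`, `n - j - m q`, `q ^ 2 - 2` has a prime factor `≤ y`, the distances to the `k`-th
preceding one have, in units `1 / V` and up to `ε`, the distribution which belongs to a Poisson process;
for `k = 1` it is the exponential distribution. -/
theorem result (θ : ℝ) (hθ : 0 < θ) (k0 : ℕ) (x0 ε : ℝ) (hε : 0 < ε) :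
    ∃ r0 : ℕ, ∀ r : ℕ, r0 ≤ r → ∀ᶠ n : ℕ in atTop, ∀ m j : ℕ, 1 ≤ m → m ≤ n → j < m →
      IsCoprime (m : ℤ) ((n : ℤ) - j) → Odd ((m : ℤ) + n - j) →
      ∀ u Y : ℕ, (n : ℝ) ^ θ ≤ Y → ∀ k T : ℕ,
      (k ≤ k0 ∨ T * V m n j ⌊(n : ℝ) ^ (1 / (r : ℝ))⌋₊ ≤ x0) →
        |(D m n j ⌊(n : ℝ) ^ (1 / (r : ℝ))⌋₊ k T u Y : ℝ) -
          Y * V m n j ⌊(n : ℝ) ^ (1 / (r : ℝ))⌋₊ *
            ∑ i ∈ range k, Real.exp (-(T * V m n j ⌊(n : ℝ) ^ (1 / (r : ℝ))⌋₊)) *
              (T * V m n j ⌊(n : ℝ) ^ (1 / (r : ℝ))⌋₊) ^ i / i.factorial| ≤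
          ε * (Y * V m n j ⌊(n : ℝ) ^ (1 / (r : ℝ))⌋₊) := by
  obtain ⟨r0, h0⟩ := Pool.Agent.R518.G.gapG 3 2 2 (1 / 2) θ (by norm_num) hθ k0 x0 ε hε
  refine ⟨r0, fun r hr => ?_⟩
  filter_upwards [h0 r hr 1, eventually_ge_atTop 2] with n hn hn2
  intro m j hm hmn hj hco hodd u Y hY k T hT
  exact hn _ (Divides m n j) (Pool.Agent.R518.G.fq_us m n j hn2 hm hmn hj hco hodd _
      (Pool.Agent.R518.G.rpow_half_lt n hn2))
    (Pool.Agent.R518.G.fq_rep m n j) _ rfl (by
    rw [one_mul]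
    exact Pool.Agent.R518.G.De_le_D1 (fun p hp => ⟨0, hp.pos, Or.inl (dvd_zero _)⟩) _) u Y hY k T hT

end Pool.Agent.Results.MP_4011c3_nt.SpacingLaw
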